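import Pool.Agent.V8H93.SV.Onto
import Pool.Agent.H533R2.VS.Spec4

set_option autoImplicit false

/-!
Linearly ordered structures and the convex equivalence relation generated by their relations.
-/

namespace Pool.Agent.V8H93.SV

open Set MeasureTheory
open Pool.Agent.H533R2.VO (RS RIso)
open Pool.Agent.H533R2.VS (p2 US UIso UDich VCu Coan Inv act Canon IsOSum)

variable {a : ℕ → ℕ}

/-- `u < v` -/
def Lt (ε : ℕ) (x : RS a) (u v : ℕ) : Prop := x ε (p2 u v) = true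

/-- `u ≤ v` -/
def Le (ε : ℕ) (x : RS a) (u v : ℕ) : Prop := u = v ∨ Lt ε x u v

/-- The relation `ε` is a strict linear order. -/
structure Lin (ε : ℕ) (x : RS a) : Prop where
  irrefl : ∀ u, ¬ Lt ε x u u
  trans : ∀ u v w, Lt ε x u v → Lt ε x v w → Lt ε x u w
  total : ∀ u v, u = v ∨ Lt ε x u v ∨ Lt ε x v u

/-- `u` and `v` lie in a closed interval whose ends are entries of a tuple of a relation. -/
def Adj (ε : ℕ) (x : RS a) (u v : ℕ) : Prop :=
  ∃ i, i ≠ ε ∧ ∃ t : Fin (a i) → ℕ, x i t = true ∧ ∃ j l,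
    (Le ε x (t j) u ∧ Le ε x u (t l)) ∧ Le ε x (t j) v ∧ Le ε x v (t l)

/-- The convex equivalence relation generated by the relations. -/
def Near (ε : ℕ) (x : RS a) : ℕ → ℕ → Prop := Relation.ReflTransGen (Adj ε x)

variable {ε : ℕ} {x : RS a}

theorem adj_symm {u v : ℕ} (h : Adj ε x u v) : Adj ε x v u := by
  obtain ⟨i, hi, t, ht, j, l, h1, h2⟩ := h
  exact ⟨i, hi, t, ht, j, l, h2, h1⟩

theorem near_symm {u v : ℕ} (h : Near ε x u v) : Near ε x v u := by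
  unfold Near at *
  induction h with
  | refl => exact .refl
  | tail _ h2 ih => exact .head (adj_symm h2) ih

theorem near_trans {u v w : ℕ} (h : Near ε x u v) (h' : Near ε x v w) : Near ε x u w :=
  Relation.ReflTransGen.trans h h'

theorem Lin.le_trans (h : Lin ε x) {u v w : ℕ} (h1 : Le ε x u v) (h2 : Le ε x v w) :
    Le ε x u w := by
  rcases h1 with rfl | h1
  · exact h2
  · rcases h2 with rfl | h2
    · exact Or.inr h1
    · exact Or.inr (h.trans _ _ _ h1 h2)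

theorem Lin.le_total (h : Lin ε x) (u v : ℕ) : Le ε x u v ∨ Le ε x v u := by
  rcases h.total u v with h | h | h
  · exact Or.inl (Or.inl h)
  · exact Or.inl (Or.inr h)
  · exact Or.inr (Or.inr h)

/-- `v` is between `u` and `w` -/
def Bt (ε : ℕ) (x : RS a) (u w v : ℕ) : Prop :=
  (Le ε x u v ∧ Le ε x v w) ∨ (Le ε x w v ∧ Le ε x v u)

theorem Lin.split (h : Lin ε x) {u w v : ℕ} (w' : ℕ) (h1 : Bt ε x u w v) :
    Bt ε x u w' v ∨ Bt ε x w' w v := by
  rcases h.le_total v w' with h2 | h2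
  · rcases h1 with ⟨h3, h4⟩ | ⟨h3, h4⟩
    · exact Or.inl (Or.inl ⟨h3, h2⟩)
    · exact Or.inr (Or.inr ⟨h3, h2⟩)
  · rcases h1 with ⟨h3, h4⟩ | ⟨h3, h4⟩
    · exact Or.inr (Or.inl ⟨h2, h4⟩)
    · exact Or.inl (Or.inr ⟨h2, h4⟩)

theorem Lin.btw_adj (h : Lin ε x) {u w v : ℕ} (h1 : Adj ε x u w) (h2 : Bt ε x u w v) :
    Adj ε x u v := by
  obtain ⟨i, hi, t, ht, j, l, h3, h4⟩ := h1
  refine ⟨i, hi, t, ht, j, l, h3, ?_⟩
  rcases h2 with ⟨h5, h6⟩ | ⟨h5, h6⟩
  · exact ⟨h.le_trans h3.1 h5, h.le_trans h6 h4.2⟩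
  · exact ⟨h.le_trans h4.1 h5, h.le_trans h6 h3.2⟩

theorem Lin.conv (h : Lin ε x) {u w : ℕ} (h1 : Near ε x u w) :
    ∀ v, Bt ε x u w v → Near ε x u v := by
  unfold Near at h1
  induction h1 with
  | refl =>
    intro v hv
    have : v = u := by
      rcases hv with ⟨h2, h3⟩ | ⟨h2, h3⟩ <;>
      · rcases h2 with h2 | h2
        · exact h2.symm
        · rcases h3 with h3 | h3
          · exact h3
          · exact absurd (h.trans _ _ _ h2 h3) (h.irrefl _)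
    rw [this]
    exact .refl
  | @tail w' w h2 h3 ih =>
    intro v hv
    rcases h.split w' hv with h4 | h4
    · exact ih v h4
    · exact near_trans h2 (.single (h.btw_adj h3 h4))

/-- no copy of the rationals in `A` -/
def Sc (ε : ℕ) (x : RS a) (A : Set ℕ) : Prop :=
  ¬ ∃ f : ℚ → ℕ, (∀ p q, p < q → Lt ε x (f p) (f q)) ∧ ∀ p, f p ∈ A

theorem exists_emb {p q : ℚ} (h : p < q) : ∃ g : ℚ → ℚ, StrictMono g ∧ ∀ r, p < g r ∧ g r < q := by
  have h1 : Nontrivial (Ioo p q) := by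
    obtain ⟨r, h2, h3⟩ := exists_between h
    obtain ⟨s, h4, h5⟩ := exists_between h3
    exact ⟨⟨⟨r, h2, h3⟩, ⟨s, h2.trans h4, h5⟩, fun he => h4.ne (congrArg Subtype.val he)⟩⟩
  obtain ⟨f⟩ := Order.embedding_from_countable_to_dense ℚ (Ioo p q)
  exact ⟨fun r => (f r : ℚ), fun r s hrs => f.strictMono hrs, fun r => ⟨(f r).2.1, (f r).2.2⟩⟩

/-- two points of a copy in a convex set -/
theorem sc_two {A : Set ℕ} (hA : ∀ u v w, u ∈ A → w ∈ A → Lt ε x u v → Lt ε x v w → v ∈ A)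
    (hs : Sc ε x A) {f : ℚ → ℕ} (hf : ∀ p q, p < q → Lt ε x (f p) (f q)) {p q : ℚ} (hpq : p < q)
    (h1 : f p ∈ A) (h2 : f q ∈ A) : False := by
  obtain ⟨g, hg, hg2⟩ := exists_emb hpq
  exact hs ⟨fun r => f (g r), fun r s hrs => hf _ _ (hg hrs), fun r =>
    hA _ _ _ h1 h2 (hf _ _ (hg2 r).1) (hf _ _ (hg2 r).2)⟩

theorem sc_union {A B : Set ℕ} (hA : ∀ u v w, u ∈ A → w ∈ A → Lt ε x u v → Lt ε x v w → v ∈ A)
    (hB : ∀ u v w, u ∈ B → w ∈ B → Lt ε x u v → Lt ε x v w → v ∈ B) (hsA : Sc ε x A)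
    (hsB : Sc ε x B) : Sc ε x (A ∪ B) := by
  rintro ⟨f, hf, hm⟩
  have h01 : (0 : ℚ) < 1 := by norm_num
  have h12 : (1 : ℚ) < 2 := by norm_num
  have h02 : (0 : ℚ) < 2 := by norm_num
  rcases hm 0 with h0 | h0 <;> rcases hm 1 with h1 | h1 <;> rcases hm 2 with h2 | h2
  · exact sc_two hA hsA hf h01 h0 h1
  · exact sc_two hA hsA hf h01 h0 h1
  · exact sc_two hA hsA hf h02 h0 h2
  · exact sc_two hB hsB hf h12 h1 h2
  · exact sc_two hA hsA hf h12 h1 h2
  · exact sc_two hB hsB hf h02 h0 h2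
  · exact sc_two hB hsB hf h01 h0 h1
  · exact sc_two hB hsB hf h01 h0 h1

theorem Lin.bt_conv (h : Lin ε x) (p q : ℕ) : ∀ u v w, u ∈ {v | Bt ε x p q v} →
    w ∈ {v | Bt ε x p q v} → Lt ε x u v → Lt ε x v w → v ∈ {v | Bt ε x p q v} := by
  have key : ∀ p q, Le ε x p q → ∀ v, Bt ε x p q v → Le ε x p v ∧ Le ε x v q := by
    intro p q hpq v hv
    rcases hv with hv | hv
    · exact hv
    · exact ⟨h.le_trans hpq hv.1, h.le_trans hv.2 hpq⟩
  intro u v w hu hw huv hvw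
  rcases h.le_total p q with hpq | hpq
  · exact Or.inl ⟨h.le_trans (key _ _ hpq _ hu).1 (Or.inr huv),
      h.le_trans (Or.inr hvw) (key _ _ hpq _ hw).2⟩
  · have hu' : Bt ε x q p u := hu.symm
    have hw' : Bt ε x q p w := hw.symm
    exact Or.inr ⟨h.le_trans (key _ _ hpq _ hu').1 (Or.inr huv),
      h.le_trans (Or.inr hvw) (key _ _ hpq _ hw').2⟩

/-- the relations span scattered intervals only -/
def Spans (ε : ℕ) (x : RS a) : Prop :=
  ∀ i, i ≠ ε → ∀ t : Fin (a i) → ℕ, x i t = true → ∀ j l,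
    Sc ε x {v | Le ε x (t j) v ∧ Le ε x v (t l)}

theorem Lin.sc_near (h : Lin ε x) (hs : Spans ε x) {u w : ℕ} (h1 : Near ε x u w) :
    Sc ε x {v | Bt ε x u w v} := by
  unfold Near at h1
  induction h1 with
  | refl =>
    rintro ⟨f, hf, hm⟩
    have key : ∀ v, Bt ε x u u v → v = u := by
      intro v hv
      rcases hv with ⟨h2, h3⟩ | ⟨h2, h3⟩ <;>
      · rcases h2 with h2 | h2
        · exact h2.symm
        · rcases h3 with h3 | h3
          · exact h3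
          · exact absurd (h.trans _ _ _ h2 h3) (h.irrefl _)
    have h2 := hf 0 1 (by norm_num)
    rw [key _ (hm 0), key _ (hm 1)] at h2
    exact h.irrefl _ h2
  | @tail w' w h2 h3 ih =>
    have h4 : Sc ε x {v | Bt ε x w' w v} := by
      obtain ⟨i, hi, t, ht, j, l, h5, h6⟩ := h3
      rintro ⟨f, hf, hm⟩
      refine hs i hi t ht j l ⟨f, hf, fun p => ?_⟩
      rcases hm p with h7 | h7
      · exact ⟨h.le_trans h5.1 h7.1, h.le_trans h7.2 h6.2⟩
      · exact ⟨h.le_trans h6.1 h7.1, h.le_trans h7.2 h5.2⟩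
    have h5 := sc_union (h.bt_conv u w') (h.bt_conv w' w) ih h4
    rintro ⟨f, hf, hm⟩
    exact h5 ⟨f, hf, fun p => h.split w' (hm p)⟩

theorem Lin.sc_block (h : Lin ε x) (hs : Spans ε x) (u : ℕ) : Sc ε x {v | Near ε x u v} := by
  rintro ⟨f, hf, hm⟩
  have h1 : Near ε x (f 0) (f 1) := near_trans (near_symm (hm 0)) (hm 1)
  refine sc_two (h.bt_conv (f 0) (f 1)) (h.sc_near hs h1) hf (p := 0) (q := 1) (by norm_num) ?_ ?_
  · exact Or.inl ⟨Or.inl rfl, Or.inr (hf _ _ (by norm_num))⟩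
  · exact Or.inl ⟨Or.inr (hf _ _ (by norm_num)), Or.inl rfl⟩

end Pool.Agent.V8H93.SV
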