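import Pool.Agent.R581.SymTop
import Pool.Agent.V8H42.TV.Final
import Pool.Agent.H533R2.VS.Spec4

set_option autoImplicit false

/-!
The perfect set dichotomy for the structures such that the limits of their automorphisms are onto.
-/

namespace Pool.Agent.V8H93.SV

open Set Filter Topology MeasureTheory
open Pool.Agent.H533R2.VO (RS RIso)
open Pool.Agent.H533R2.VS (US UIso UDich VCu Coan Inv act)

/-- pointwise limits of automorphisms are onto -/
def Lim {a : ℕ → ℕ} (x : RS a) : Prop := ∀ (g : ℕ → Equiv.Perm ℕ) (j : ℕ → ℕ),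
  (∀ n i v, x i (⇑(g n) ∘ v) = x i v) → (∀ m, ∃ N, ∀ n, N ≤ n → g n m = j m) →
    Function.Surjective j

theorem cont_of_meas {Z : Type} [TopologicalSpace Z] [SecondCountableTopology Z]
    [MeasurableSpace Z] [BorelSpace Z] {f : (ℕ → Bool) → Z} (hf : Measurable f) :
    ∃ c : (ℕ → Bool) → (ℕ → Bool), Function.Injective c ∧ Continuous (f ∘ c) := by
  have _ : PolishSpace (ℕ → Bool) := {}
  obtain ⟨t', ht, hc, hp⟩ := hf.exists_continuous
  have hu : ¬ (univ : Set (ℕ → Bool)).Countable := by
    intro h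
    have h1 : Countable (ℕ → Bool) := countable_univ_iff.1 h
    obtain ⟨φ, hφ⟩ := h1.exists_injective_nat
    classical
    refine Function.cantor_injective (fun s : Set ℕ => φ fun n => decide (n ∈ s)) fun s s' hs => ?_
    ext n
    have h2 := congrFun (hφ hs) n
    simpa using h2
  obtain ⟨c, -, h1, h2⟩ := @IsClosed.exists_nat_bool_injection_of_not_countable (ℕ → Bool) t' hp
    univ (@isClosed_univ _ t') hu
  refine ⟨c, h2, ?_⟩
  rw [continuous_def]
  intro s hs
  have h3 : IsOpen[t'] (f ⁻¹' s) := (@continuous_def _ _ t' _ f).1 hc s hs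
  exact (@continuous_def _ _ _ t' c).1 h1 _ h3

/-- the action on an invariant class -/
@[reducible] def actU {a : ℕ → ℕ} (B : Set (US a)) (hB : ∀ x y, UIso x y → (x ∈ B ↔ y ∈ B)) :
    MulAction (Equiv.Perm ℕ) B where
  smul g x := ⟨(fun i v => x.1.1 i (⇑g.symm ∘ v), fun i u => x.1.2 i (g.symm u)),
    (hB x.1 _ ⟨g, fun i v => by
      show x.1.1 i (⇑g.symm ∘ (⇑g ∘ v)) = x.1.1 i v
      rw [← Function.comp_assoc, Equiv.symm_comp_self, Function.id_comp], fun i u => by
      show x.1.2 i (g.symm (g u)) = x.1.2 i u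
      rw [Equiv.symm_apply_apply]⟩).1 x.2⟩
  one_smul x := rfl
  mul_smul g h x := rfl

theorem vcu_lim {a : ℕ → ℕ} (V : RS a → Prop) (hV : ∀ x, V x → Lim x) : VCu V := by
  intro B hB hi hBV
  let _ : TopologicalSpace (Equiv.Perm ℕ) := Pool.Agent.R581.sig
  have _ : PolishSpace (Equiv.Perm ℕ) := Pool.Agent.R581.sig_polish
  have _ : IsTopologicalGroup (Equiv.Perm ℕ) := Pool.Agent.R581.sig_group
  let _ : MeasurableSpace (Equiv.Perm ℕ) := borel _
  have _ : BorelSpace (Equiv.Perm ℕ) := ⟨rfl⟩
  have _ : StandardBorelSpace B := hB.standardBorel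
  let _ : MulAction (Equiv.Perm ℕ) B := actU B hi
  have hop : ∀ m k : ℕ, MeasurableSet {g : Equiv.Perm ℕ | g m = k} := fun m k =>
    (Pool.Agent.R581.sig_isOpen m k).measurableSet
  have hm : Measurable fun p : Equiv.Perm ℕ × B => p.1 • p.2 := by
    refine Measurable.subtype_mk (Measurable.prodMk ?_ ?_)
    · refine measurable_pi_lambda _ fun i => measurable_pi_lambda _ fun v => ?_
      refine measurable_to_bool ?_
      have : ((fun p : Equiv.Perm ℕ × B => p.2.1.1 i (⇑p.1.symm ∘ v)) ⁻¹' {true}) =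
          ⋃ w : Fin (a i) → ℕ, {p : Equiv.Perm ℕ × B | (∀ k, p.1 (w k) = v k) ∧
            p.2.1.1 i w = true} := by
        ext p
        simp only [mem_preimage, mem_singleton_iff, mem_iUnion, mem_ofPred_eq]
        constructor
        · intro h
          exact ⟨⇑p.1.symm ∘ v, fun k => p.1.apply_symm_apply _, h⟩
        · rintro ⟨w, h1, h2⟩
          have : w = ⇑p.1.symm ∘ v := by
            funext k
            exact (p.1.symm_apply_eq.2 (h1 k).symm).symm
          rw [← this]
          exact h2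
      rw [this]
      refine MeasurableSet.iUnion fun w => MeasurableSet.inter ?_ ?_
      · have h1 : {p : Equiv.Perm ℕ × B | ∀ k, p.1 (w k) = v k} =
            ⋂ k, Prod.fst ⁻¹' {g : Equiv.Perm ℕ | g (w k) = v k} := by
          ext p
          simp
        have h2 : MeasurableSet {p : Equiv.Perm ℕ × B | ∀ k, p.1 (w k) = v k} := by
          rw [h1]
          exact MeasurableSet.iInter fun k => measurable_fst (hop _ _)
        exact h2
      · have h1 : Measurable fun p : Equiv.Perm ℕ × B => p.2.1.1 i w :=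
          (measurable_pi_apply w).comp ((measurable_pi_apply i).comp (measurable_fst.comp
            (measurable_subtype_coe.comp measurable_snd)))
        exact h1 (measurableSet_singleton true)
    · refine measurable_pi_lambda _ fun i => measurable_pi_lambda _ fun u => ?_
      refine measurable_to_bool ?_
      have : ((fun p : Equiv.Perm ℕ × B => p.2.1.2 i (p.1.symm u)) ⁻¹' {true}) =
          ⋃ w : ℕ, {p : Equiv.Perm ℕ × B | p.1 w = u ∧ p.2.1.2 i w = true} := by
        ext p
        simp only [mem_preimage, mem_singleton_iff, mem_iUnion, mem_ofPred_eq]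
        constructor
        · intro h
          exact ⟨p.1.symm u, p.1.apply_symm_apply _, h⟩
        · rintro ⟨w, h1, h2⟩
          have : w = p.1.symm u := (p.1.symm_apply_eq.2 h1.symm).symm
          rw [← this]
          exact h2
      rw [this]
      refine MeasurableSet.iUnion fun w => MeasurableSet.inter ?_ ?_
      · exact measurable_fst (hop w u)
      · have h1 : Measurable fun p : Equiv.Perm ℕ × B => p.2.1.2 i w :=
          (measurable_pi_apply w).comp ((measurable_pi_apply i).comp (measurable_snd.comp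
            (measurable_subtype_coe.comp measurable_snd)))
        exact h1 (measurableSet_singleton true)
  have hcli : ∀ (x : B) (t : ℕ → Equiv.Perm ℕ), (∀ n, t n • x = x) →
      (∀ O : Set (Equiv.Perm ℕ), IsOpen O → (1 : Equiv.Perm ℕ) ∈ O → ∃ N, ∀ m n, N ≤ m → N ≤ n →
        t m * (t n)⁻¹ ∈ O) → ∃ a, Tendsto t atTop (𝓝 a) := by
    intro x t ht hc
    have h1 : ∀ m, ∃ N, ∀ n, N ≤ n → (t n)⁻¹ m = (t N)⁻¹ m := by
      intro m
      obtain ⟨N, hN⟩ := hc _ (Pool.Agent.R581.sig_isOpen m m) rfl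
      refine ⟨N, fun n hn => ?_⟩
      have h2 : t N ((t n)⁻¹ m) = m := hN N n le_rfl hn
      exact (Equiv.Perm.inv_eq_iff_eq.2 h2.symm).symm
    choose N hN using h1
    let j : ℕ → ℕ := fun m => (t (N m))⁻¹ m
    have hj : ∀ m, ∃ N, ∀ n, N ≤ n → (t n)⁻¹ m = j m := fun m => ⟨N m, hN m⟩
    have hsur : Function.Surjective j := by
      refine hV x.1.1 (hBV _ x.2) (fun n => (t n)⁻¹) j (fun n i v => ?_) hj
      have h2 := congrArg (fun y : B => y.1.1 i v) (ht n)
      exact h2
    have hinj : Function.Injective j := by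
      intro m m' h
      obtain ⟨N1, h1⟩ := hj m
      obtain ⟨N2, h2⟩ := hj m'
      have h3 := h1 (max N1 N2) (le_max_left _ _)
      have h4 := h2 (max N1 N2) (le_max_right _ _)
      exact ((t (max N1 N2))⁻¹).injective (h3.trans (h.trans h4.symm))
    let b : Equiv.Perm ℕ := Equiv.ofBijective j ⟨hinj, hsur⟩
    refine ⟨b⁻¹, ?_⟩
    rw [nhds_induced, tendsto_comap_iff]
    have h5 : ∀ k, ∃ N, ∀ n, N ≤ n → t n k = b⁻¹ k := by
      intro k
      obtain ⟨l, hl⟩ := hsur k
      obtain ⟨N, hN⟩ := hj l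
      refine ⟨N, fun n hn => ?_⟩
      have h6 : b⁻¹ k = l := by
        rw [Equiv.Perm.inv_eq_iff_eq]
        exact hl.symm
      rw [h6]
      have h7 := hN n hn
      rw [hl] at h7
      rw [← h7]
      exact (t n).apply_symm_apply l
    refine Tendsto.prodMk_nhds (f := atTop) ?_ ?_
    · rw [tendsto_pi_nhds]
      intro k
      obtain ⟨N, hN⟩ := h5 k
      exact tendsto_atTop_of_eventually_const (i₀ := N) hN
    · rw [tendsto_pi_nhds]
      intro k
      obtain ⟨N, hN⟩ := hj k
      refine tendsto_atTop_of_eventually_const (i₀ := N) fun n hn => ?_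
      show (t n)⁻¹ k = b⁻¹⁻¹ k
      rw [inv_inv]
      exact hN n hn
  have hiso : ∀ (g : Equiv.Perm ℕ) (x : B), UIso x.1 (g • x).1 := by
    intro g x
    refine ⟨g, fun i v => ?_, fun i u => ?_⟩
    · show x.1.1 i (⇑g.symm ∘ (⇑g ∘ v)) = x.1.1 i v
      rw [← Function.comp_assoc, Equiv.symm_comp_self, Function.id_comp]
    · show x.1.2 i (g.symm (g u)) = x.1.2 i u
      rw [Equiv.symm_apply_apply]
  have hiso' : ∀ x y : B, UIso x.1 y.1 → ∃ g : Equiv.Perm ℕ, g • x = y := by
    rintro x y ⟨g, h1, h2⟩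
    refine ⟨g, Subtype.ext (Prod.ext ?_ ?_)⟩
    · funext i v
      show x.1.1 i (⇑g.symm ∘ v) = y.1.1 i v
      rw [← h1, ← Function.comp_assoc, Equiv.self_comp_symm, Function.id_comp]
    · funext i u
      show x.1.2 i (g.symm u) = y.1.2 i u
      rw [← h2, Equiv.apply_symm_apply]
  rcases Pool.Agent.V8H42.TV.main hm hcli with ⟨S, hS, h⟩ | ⟨f, hf, h⟩
  · left
    rcases B.eq_empty_or_nonempty with hBe | ⟨x0, hx0⟩
    · refine ⟨fun _ => (fun _ _ => false, fun _ _ => false), fun x hx => ?_⟩
      rw [hBe] at hx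
      exact hx.elim
    · have hSne : S.Nonempty := by
        obtain ⟨s, hs, -⟩ := h ⟨x0, hx0⟩
        exact ⟨s, hs⟩
      obtain ⟨e, he⟩ := hS.exists_eq_range hSne
      refine ⟨fun n => (e n).1, fun x hx => ?_⟩
      obtain ⟨s, hs, g, hg⟩ := h ⟨x, hx⟩
      rw [he] at hs
      obtain ⟨n, rfl⟩ := hs
      refine ⟨n, ?_⟩
      have := hiso g (e n)
      rw [hg] at this
      exact this
  · right
    obtain ⟨c, hc1, hc2⟩ := cont_of_meas (measurable_subtype_coe.comp hf)
    refine ⟨fun s => (f (c s)).1, hc2, fun s => (f (c s)).2, fun s s' hss => ?_⟩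
    by_contra hne
    exact h _ _ (fun he => hne (hc1 he)) (hiso' _ _ hss)

end Pool.Agent.V8H93.SV
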