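import Pool.Agent.V8H93.SV.Cod
import Pool.Agent.TH425.FF.Par

set_option autoImplicit false

/-!
The class of the linearly ordered structures with scattered spans is coanalytic and invariant.
-/

namespace Pool.Agent.V8H93.SV

open Set MeasureTheory
open Pool.Agent.H533R2.VO (RS RIso)
open Pool.Agent.H533R2.VS (p2 US UIso UDich VCu Coan Inv act Canon IsOSum)

variable {a : ℕ → ℕ} {ε : ℕ}

/-- the class of the linearly ordered structures with scattered spans -/
def LS (ε : ℕ) (x : RS a) : Prop := Lin ε x ∧ Spans ε x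

theorem ms_lin : MeasurableSet {x : RS a | Lin ε x} := by
  have h1 : {x : RS a | Lin ε x} = {x : RS a | (¬ ∃ u, Lt ε x u u) ∧
      (¬ ∃ u v w, Lt ε x u v ∧ Lt ε x v w ∧ ¬ Lt ε x u w) ∧
      ¬ ∃ u v, ¬ (u = v ∨ Lt ε x u v ∨ Lt ε x v u)} := by
    ext x
    constructor
    · intro h
      refine ⟨fun ⟨u, h1⟩ => h.irrefl u h1, ?_, ?_⟩
      · rintro ⟨u, v, w, h1, h2, h3⟩
        exact h3 (h.trans _ _ _ h1 h2)
      · rintro ⟨u, v, h1⟩
        exact h1 (h.total u v)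
    · rintro ⟨h1, h2, h3⟩
      refine ⟨fun u h => h1 ⟨u, h⟩, fun u v w h h' => ?_, fun u v => ?_⟩
      · by_contra h4
        exact h2 ⟨u, v, w, h, h', h4⟩
      · by_contra h4
        exact h3 ⟨u, v, h4⟩
  rw [h1]
  exact ms_and (ms_not (ms_ex fun _ => ms_lt _ _)) (ms_and
    (ms_not (ms_ex fun _ => ms_ex fun _ => ms_ex fun _ => ms_and (ms_lt _ _) (ms_and (ms_lt _ _)
      (ms_not (ms_lt _ _)))))
    (ms_not (ms_ex fun _ => ms_ex fun _ => ms_not (ms_or (ms_c _) (ms_or (ms_lt _ _)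
      (ms_lt _ _))))))

theorem an_union {Z : Type*} [TopologicalSpace Z] {s t : Set Z} (hs : AnalyticSet s)
    (ht : AnalyticSet t) : AnalyticSet (s ∪ t) := by
  rw [union_eq_iUnion]
  refine AnalyticSet.iUnion fun b => ?_
  cases b
  · exact ht
  · exact hs

theorem ms_f2 {R : RS a → ℕ → ℕ → Prop} (hR : ∀ u v, MeasurableSet {x : RS a | R x u v})
    (p q : ℚ) : MeasurableSet {y : RS a × (ℚ → ℕ) | R y.1 (y.2 p) (y.2 q)} := by
  have h1 : {y : RS a × (ℚ → ℕ) | R y.1 (y.2 p) (y.2 q)} =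
      {y : RS a × (ℚ → ℕ) | ∃ u v, (y.2 p = u ∧ y.2 q = v) ∧ R y.1 u v} := by
    ext y
    constructor
    · intro h
      exact ⟨_, _, ⟨rfl, rfl⟩, h⟩
    · rintro ⟨u, v, ⟨rfl, rfl⟩, h⟩
      exact h
  rw [h1]
  refine ms_ex fun u => ms_ex fun v => ms_and (ms_and ?_ ?_) ?_
  · have h2 : Measurable fun y : RS a × (ℚ → ℕ) => y.2 p :=
      (measurable_pi_apply p).comp measurable_snd
    exact h2 (measurableSet_singleton u)
  · have h2 : Measurable fun y : RS a × (ℚ → ℕ) => y.2 q :=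
      (measurable_pi_apply q).comp measurable_snd
    exact h2 (measurableSet_singleton v)
  · exact measurable_fst (hR u v)

theorem coan_ls : Coan (LS ε : RS a → Prop) := by
  unfold Coan
  have h1 : {x : RS a | ¬ LS ε x} = {x : RS a | ¬ Lin ε x} ∪
      Prod.fst '' {y : RS a × (ℚ → ℕ) | ∃ i, i ≠ ε ∧ ∃ t : Fin (a i) → ℕ, y.1 i t = true ∧
        ∃ j l, (¬ ∃ p q : ℚ, ¬ (p < q → Lt ε y.1 (y.2 p) (y.2 q))) ∧
          ¬ ∃ p : ℚ, ¬ (Le ε y.1 (t j) (y.2 p) ∧ Le ε y.1 (y.2 p) (t l))} := by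
    ext x
    constructor
    · intro h
      by_cases h2 : Lin ε x
      · right
        have h3 : ¬ Spans ε x := fun h3 => h ⟨h2, h3⟩
        unfold Spans Sc at h3
        push Not at h3
        obtain ⟨i, hi, t, ht, j, l, f, hf, hm⟩ := h3
        refine ⟨(x, f), ⟨i, hi, t, ht, j, l, ?_, ?_⟩, rfl⟩
        · rintro ⟨p, q, hpq⟩
          exact hpq (hf p q)
        · rintro ⟨p, hp⟩
          exact hp (hm p)
      · exact Or.inl h2
    · rintro (h2 | ⟨⟨x, f⟩, ⟨i, hi, t, ht, j, l, h4, h5⟩, rfl⟩) h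
      · exact h2 h.1
      · refine h.2 i hi t ht j l ⟨f, fun p q hpq => ?_, fun p => ?_⟩
        · by_contra h6
          exact h4 ⟨p, q, fun h7 => h6 (h7 hpq)⟩
        · by_contra h6
          exact h5 ⟨p, h6⟩
  rw [h1]
  have b1 : BorelSpace ((i : ℕ) → (Fin (a i) → ℕ) → Bool) := inferInstance
  have b2 : BorelSpace (RS a × (ℚ → ℕ)) := inferInstance
  have p1 : PolishSpace ((i : ℕ) → (Fin (a i) → ℕ) → Bool) := {}
  have p2 : PolishSpace (RS a × (ℚ → ℕ)) := {}
  refine an_union ?_ ?_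
  · exact (ms_lin.compl).analyticSet
  · refine AnalyticSet.image_of_continuous (MeasurableSet.analyticSet ?_) continuous_fst
    refine ms_ex fun i => ms_and (ms_c _) (ms_ex fun t => ms_and (measurable_fst (ms_rel i t))
      (ms_ex fun j => ms_ex fun l => ms_and (ms_not (ms_ex fun p => ms_ex fun q => ?_))
        (ms_not (ms_ex fun p => ms_not ?_))))
    · by_cases hpq : p < q
      · have h2 : {y : RS a × (ℚ → ℕ) | ¬ (p < q → Lt ε y.1 (y.2 p) (y.2 q))} =
            {y | ¬ Lt ε y.1 (y.2 p) (y.2 q)} := by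
          ext y
          simp [hpq]
        rw [h2]
        exact ms_not (ms_f2 (R := fun x u v => Lt ε x u v) (fun u v => ms_lt u v) p q)
      · have h2 : {y : RS a × (ℚ → ℕ) | ¬ (p < q → Lt ε y.1 (y.2 p) (y.2 q))} = ∅ := by
          ext y
          simp [hpq]
        rw [h2]
        exact MeasurableSet.empty
    · exact ms_and (ms_f2 (R := fun x _ v => Le ε x (t j) v) (fun _ v => ms_le _ v) p p)
        (ms_f2 (R := fun x u _ => Le ε x u (t l)) (fun u _ => ms_le u _) p p)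

theorem inv_ls : Inv (LS ε : RS a → Prop) := by
  rintro x y ⟨σ, hσ⟩ ⟨hl, hs⟩
  have h1 : ∀ u v, Lt ε y (σ u) (σ v) ↔ Lt ε x u v := by
    intro u v
    unfold Lt
    have h2 : (⇑σ ∘ (p2 u v : Fin (a ε) → ℕ)) = p2 (σ u) (σ v) := by
      funext k
      unfold p2
      show σ (if k.val = 0 then u else v) = _
      split <;> rfl
    rw [← h2, hσ]
  have h2 : ∀ u v, Lt ε y u v ↔ Lt ε x (σ.symm u) (σ.symm v) := by
    intro u v
    rw [← h1, σ.apply_symm_apply, σ.apply_symm_apply]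
  have h3 : ∀ u v, Le ε y u v ↔ Le ε x (σ.symm u) (σ.symm v) := by
    intro u v
    unfold Le
    rw [h2, σ.symm.injective.eq_iff]
  refine ⟨⟨fun u h => hl.irrefl _ ((h2 _ _).1 h), fun u v w h h' =>
    (h2 _ _).2 (hl.trans _ _ _ ((h2 _ _).1 h) ((h2 _ _).1 h')), fun u v => ?_⟩, ?_⟩
  · rw [h2, h2]
    rcases hl.total (σ.symm u) (σ.symm v) with h | h | h
    · exact Or.inl (σ.symm.injective h)
    · exact Or.inr (Or.inl h)
    · exact Or.inr (Or.inr h)
  · rintro i hi t ht j l ⟨f, hf, hm⟩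
    refine hs i hi (⇑σ.symm ∘ t) ?_ j l ⟨fun q => σ.symm (f q), fun p q hpq => (h2 _ _).1
      (hf p q hpq), fun p => ⟨(h3 _ _).1 (hm p).1, (h3 _ _).1 (hm p).2⟩⟩
    rw [← hσ, ← Function.comp_assoc, Equiv.self_comp_symm, Function.id_comp]
    exact ht

end Pool.Agent.V8H93.SV
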