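import Pool.Agent.V8H93.SV.Blk
import Pool.Agent.V8H93.SV.Cli
import Pool.Agent.H533R2.VS.All2

set_option autoImplicit false

/-!
Coding of linearly ordered structures as ordered sums of the blocks of the convex equivalence
relation generated by the relations.
-/

namespace Pool.Agent.V8H93.SV

open Set MeasureTheory
open Pool.Agent.H533R2.VO (RS RIso)
open Pool.Agent.H533R2.VS (p2 US UIso UDich VCu Coan Inv act Canon IsOSum)

variable {a : ℕ → ℕ} {ε : ℕ}

/-! ### Measurability -/

theorem ms_ex {Z ι : Type*} [MeasurableSpace Z] [Countable ι] {p : ι → Z → Prop}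
    (h : ∀ i, MeasurableSet {x | p i x}) : MeasurableSet {x | ∃ i, p i x} := by
  rw [ofPred_exists]
  exact MeasurableSet.iUnion h

theorem ms_and {Z : Type*} [MeasurableSpace Z] {p q : Z → Prop} (h : MeasurableSet {x | p x})
    (h' : MeasurableSet {x | q x}) : MeasurableSet {x | p x ∧ q x} := h.inter h'

theorem ms_or {Z : Type*} [MeasurableSpace Z] {p q : Z → Prop} (h : MeasurableSet {x | p x})
    (h' : MeasurableSet {x | q x}) : MeasurableSet {x | p x ∨ q x} := h.union h'

theorem ms_not {Z : Type*} [MeasurableSpace Z] {p : Z → Prop} (h : MeasurableSet {x | p x}) :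
    MeasurableSet {x | ¬ p x} := h.compl

theorem ms_c {Z : Type*} [MeasurableSpace Z] (p : Prop) : MeasurableSet {_x : Z | p} :=
  MeasurableSet.const p

theorem ms_rel (i : ℕ) (t : Fin (a i) → ℕ) : MeasurableSet {x : RS a | x i t = true} := by
  have h1 : Measurable fun x : RS a => x i t :=
    (measurable_pi_apply t).comp (measurable_pi_apply i)
  exact h1 (measurableSet_singleton true)

theorem ms_lt (u v : ℕ) : MeasurableSet {x : RS a | Lt ε x u v} := ms_rel _ _

theorem ms_le (u v : ℕ) : MeasurableSet {x : RS a | Le ε x u v} := ms_or (ms_c _) (ms_lt _ _)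

theorem ms_adj (u v : ℕ) : MeasurableSet {x : RS a | Adj ε x u v} := by
  unfold Adj
  refine ms_ex fun i => ms_and (ms_c _) (ms_ex fun t => ms_and (ms_rel i t) (ms_ex fun j =>
    ms_ex fun l => ms_and (ms_and (ms_le _ _) (ms_le _ _)) (ms_and (ms_le _ _) (ms_le _ _))))

/-- chains of length `n` -/
def Nr (ε : ℕ) (x : RS a) : ℕ → ℕ → ℕ → Prop
  | 0, u, v => u = v
  | n + 1, u, v => ∃ w, Nr ε x n u w ∧ Adj ε x w v

theorem near_iff (x : RS a) (u v : ℕ) : Near ε x u v ↔ ∃ n, Nr ε x n u v := by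
  constructor
  · intro h
    unfold Near at h
    induction h with
    | refl => exact ⟨0, rfl⟩
    | @tail w v _ h2 ih =>
      obtain ⟨n, hn⟩ := ih
      exact ⟨n + 1, w, hn, h2⟩
  · rintro ⟨n, hn⟩
    induction n generalizing v with
    | zero =>
      have : u = v := hn
      rw [this]
      exact .refl
    | succ n ih =>
      obtain ⟨w, h1, h2⟩ := hn
      exact .tail (ih _ h1) h2

theorem ms_near (u v : ℕ) : MeasurableSet {x : RS a | Near ε x u v} := by
  have h1 : ∀ n u v, MeasurableSet {x : RS a | Nr ε x n u v} := by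
    intro n
    induction n with
    | zero => intro u v; exact ms_c _
    | succ n ih =>
      intro u v
      exact ms_ex fun w => ms_and (ih _ _) (ms_adj _ _)
  have h2 : {x : RS a | Near ε x u v} = {x : RS a | ∃ n, Nr ε x n u v} := by
    ext x
    exact near_iff x u v
  rw [h2]
  exact ms_ex fun n => h1 n u v

/-! ### Equivariance -/

theorem act_p2 (σ : Equiv.Perm ℕ) (n u v : ℕ) :
    (⇑σ.symm ∘ (p2 u v : Fin n → ℕ)) = p2 (σ.symm u) (σ.symm v) := by
  funext j
  unfold p2
  show σ.symm (if j.val = 0 then u else v) = _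
  split <;> rfl

theorem lt_act (σ : Equiv.Perm ℕ) (x : RS a) (u v : ℕ) :
    Lt ε (act σ x) u v ↔ Lt ε x (σ.symm u) (σ.symm v) := by
  unfold Lt act
  rw [act_p2]

theorem le_act (σ : Equiv.Perm ℕ) (x : RS a) (u v : ℕ) :
    Le ε (act σ x) u v ↔ Le ε x (σ.symm u) (σ.symm v) := by
  unfold Le
  rw [lt_act, σ.symm.injective.eq_iff]

theorem adj_act (σ : Equiv.Perm ℕ) (x : RS a) (u v : ℕ) :
    Adj ε (act σ x) u v ↔ Adj ε x (σ.symm u) (σ.symm v) := by
  unfold Adj
  constructor
  · rintro ⟨i, hi, t, ht, j, l, ⟨h1, h2⟩, h3, h4⟩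
    rw [le_act] at h1 h2 h3 h4
    exact ⟨i, hi, ⇑σ.symm ∘ t, ht, j, l, ⟨h1, h2⟩, h3, h4⟩
  · rintro ⟨i, hi, t, ht, j, l, ⟨h1, h2⟩, h3, h4⟩
    refine ⟨i, hi, ⇑σ ∘ t, ?_, j, l, ⟨?_, ?_⟩, ?_, ?_⟩
    · show x i (⇑σ.symm ∘ (⇑σ ∘ t)) = true
      rw [← Function.comp_assoc, Equiv.symm_comp_self, Function.id_comp]
      exact ht
    all_goals
      rw [le_act]
      simpa using by assumption

theorem near_act (σ : Equiv.Perm ℕ) (x : RS a) (u v : ℕ) :
    Near ε (act σ x) u v ↔ Near ε x (σ.symm u) (σ.symm v) := by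
  constructor
  · intro h
    unfold Near at h ⊢
    induction h with
    | refl => exact .refl
    | tail _ h2 ih => exact .tail ih ((adj_act σ x _ _).1 h2)
  · intro h
    have key : ∀ u v, Near ε x u v → Near ε (act σ x) (σ u) (σ v) := by
      intro u v h
      unfold Near at h ⊢
      induction h with
      | refl => exact .refl
      | tail _ h2 ih =>
        refine .tail ih ((adj_act σ x _ _).2 ?_)
        rw [σ.symm_apply_apply, σ.symm_apply_apply]
        exact h2
    have h1 := key _ _ h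
    rw [σ.apply_symm_apply, σ.apply_symm_apply] at h1
    exact h1

/-! ### The coding -/

/-- arities of the code -/
def ar (a : ℕ → ℕ) : ℕ → ℕ
  | 0 => 2
  | i + 1 => a i

/-- the first entry -/
abbrev f0 : Fin (ar a 0) := (0 : Fin 2)

/-- the second entry -/
abbrev f1 : Fin (ar a 0) := (1 : Fin 2)

open Classical in
/-- the code -/
noncomputable def cod (ε : ℕ) (x : RS a) : RS (ar a)
  | 0, v => decide (Lt ε x (v f0) (v f1) ∧ ¬ Near ε x (v f0) (v f1))
  | i + 1, v => decide (x i v = true ∧ (i = ε → ∀ j l, Near ε x (v j) (v l)))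

theorem cod_zero (x : RS a) (v : Fin 2 → ℕ) :
    cod ε x 0 v = true ↔ Lt ε x (v 0) (v 1) ∧ ¬ Near ε x (v 0) (v 1) := by
  classical
  exact decide_eq_true_iff

theorem cod_succ (x : RS a) (i : ℕ) (v : Fin (a i) → ℕ) :
    cod ε x (i + 1) v = true ↔ x i v = true ∧ (i = ε → ∀ j l, Near ε x (v j) (v l)) := by
  classical
  exact decide_eq_true_iff

/-- the decoding -/
def dec (hε : a ε = 2) (z : RS (ar a)) : RS a := fun i v =>
  if h : i = ε then (z (i + 1) v || z 0 fun j : Fin 2 => v (Fin.cast (by rw [h, hε]) j)) else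
    z (i + 1) v

theorem dec_eq (hε : a ε = 2) (z : RS (ar a)) (v : Fin (a ε) → ℕ) :
    dec hε z ε v = (z (ε + 1) v || z 0 fun j : Fin 2 => v (Fin.cast hε.symm j)) := by
  unfold dec
  rw [dif_pos rfl]

theorem dec_ne (hε : a ε = 2) (z : RS (ar a)) {i : ℕ} (h : i ≠ ε) (v : Fin (a i) → ℕ) :
    dec hε z i v = z (i + 1) v := by
  unfold dec
  rw [dif_neg h]

theorem cod_meas : Measurable (cod ε : RS a → RS (ar a)) := by
  refine measurable_pi_lambda _ fun i => measurable_pi_lambda _ fun v => measurable_to_bool ?_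
  cases i with
  | zero =>
    have : (fun x : RS a => cod ε x 0 v) ⁻¹' {true} =
        {x | Lt ε x (v f0) (v f1) ∧ ¬ Near ε x (v f0) (v f1)} := by
      ext x
      exact cod_zero x v
    rw [this]
    exact ms_and (ms_lt _ _) (ms_not (ms_near _ _))
  | succ i =>
    have : (fun x : RS a => cod ε x (i + 1) v) ⁻¹' {true} =
        {x | x i v = true ∧ ¬ ∃ j l, ¬ (i = ε → Near ε x (v j) (v l))} := by
      ext x
      refine (cod_succ x i v).trans (and_congr_right fun _ => ?_)
      push Not
      constructor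
      · intro h j l hi
        exact h hi j l
      · intro h hi j l
        exact h j l hi
    rw [this]
    by_cases h : i = ε
    · refine ms_and (ms_rel i v) (ms_not (ms_ex fun j => ms_ex fun l => ms_not ?_))
      have h2 : {x : RS a | i = ε → Near ε x (v j) (v l)} = {x | Near ε x (v j) (v l)} := by
        ext x
        simp [h]
      rw [h2]
      exact ms_near _ _
    · refine ms_and (ms_rel i v) (ms_not (ms_ex fun j => ms_ex fun l => ms_not ?_))
      have h2 : {x : RS a | i = ε → Near ε x (v j) (v l)} = univ := by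
        ext x
        simp [h]
      rw [h2]
      exact MeasurableSet.univ

theorem dec_cont (hε : a ε = 2) : Continuous (dec hε : RS (ar a) → RS a) := by
  refine continuous_pi fun i => continuous_pi fun v => ?_
  by_cases h : i = ε
  · subst h
    have : (fun z : RS (ar a) => dec hε z i v) = fun z =>
        (z (i + 1) v || z 0 fun j : Fin 2 => v (Fin.cast hε.symm j)) := by
      funext z
      exact dec_eq hε z v
    rw [this]
    have h1 : Continuous fun p : Bool × Bool => (p.1 || p.2) := continuous_of_discreteTopology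
    have h2 : Continuous fun z : RS (ar a) => z (i + 1) v :=
      (continuous_apply (A := fun _ : Fin (ar a (i + 1)) → ℕ => Bool) v).comp
        (continuous_apply (i + 1))
    have h3 : Continuous fun z : RS (ar a) => z 0 fun j : Fin 2 => v (Fin.cast hε.symm j) :=
      (continuous_apply (A := fun _ : Fin (ar a 0) → ℕ => Bool)
        (fun j : Fin 2 => v (Fin.cast hε.symm j))).comp (continuous_apply 0)
    exact h1.comp (h2.prodMk h3)
  · have : (fun z : RS (ar a) => dec hε z i v) = fun z => z (i + 1) v := by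
      funext z
      exact dec_ne hε z h v
    rw [this]
    exact (continuous_apply (A := fun _ : Fin (ar a (i + 1)) → ℕ => Bool) v).comp
      (continuous_apply (i + 1))

theorem cod_act (σ : Equiv.Perm ℕ) (x : RS a) : cod ε (act σ x) = act σ (cod ε x) := by
  funext i v
  rw [Bool.eq_iff_iff]
  cases i with
  | zero =>
    refine (cod_zero (act σ x) v).trans ?_
    rw [lt_act, near_act]
    exact (cod_zero x (⇑σ.symm ∘ v)).symm
  | succ i =>
    refine (cod_succ (act σ x) i v).trans ?_
    simp only [near_act]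
    exact (cod_succ x i (⇑σ.symm ∘ v)).symm

theorem dec_act (hε : a ε = 2) (σ : Equiv.Perm ℕ) (z : RS (ar a)) :
    dec hε (act σ z) = act σ (dec hε z) := by
  funext i v
  by_cases h : i = ε
  · subst h
    rw [dec_eq]
    show _ = dec hε z i (⇑σ.symm ∘ v)
    rw [dec_eq]
    rfl
  · rw [dec_ne hε _ h]
    show _ = dec hε z i (⇑σ.symm ∘ v)
    rw [dec_ne hε _ h]
    rfl

theorem canon (hε : a ε = 2) : Canon (cod ε : RS a → RS (ar a)) (dec hε) :=
  ⟨cod_meas, dec_cont hε, cod_act, dec_act hε⟩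

/-- the class of the linearly ordered structures with complete blocks -/
structure Cb (ε : ℕ) (x : RS a) : Prop where
  lin : Lin ε x
  blocks : ∀ (u : ℕ) (e : ℕ → ℕ), Function.Injective e → (∀ z, Near ε x u z ↔ ∃ n, e n = z) →
    Lim (fun i v => x i (e ∘ v) : RS a)

theorem tup_eq {n : ℕ} (h : n = 2) (v : Fin n → ℕ) :
    v = p2 (v (Fin.cast h.symm 0)) (v (Fin.cast h.symm 1)) := by
  subst h
  funext j
  fin_cases j <;> rfl

theorem near_refl (x : RS a) (u : ℕ) : Near ε x u u := Relation.ReflTransGen.refl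

theorem dec_cod (hε : a ε = 2) (x : RS a) : dec hε (cod ε x) = x := by
  funext i v
  rw [Bool.eq_iff_iff]
  by_cases h : i = ε
  · subst h
    rw [dec_eq, Bool.or_eq_true, cod_succ, cod_zero]
    have h2 : Lt i x (v (Fin.cast hε.symm 0)) (v (Fin.cast hε.symm 1)) ↔ x i v = true := by
      unfold Lt
      rw [← tup_eq hε v]
    rw [h2]
    constructor
    · rintro (h3 | h3)
      · exact h3.1
      · exact h3.1
    · intro h3
      by_cases h4 : Near i x (v (Fin.cast hε.symm 0)) (v (Fin.cast hε.symm 1))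
      · left
        refine ⟨h3, fun _ j l => ?_⟩
        have h5 : ∀ j : Fin (a i), j = Fin.cast hε.symm 0 ∨ j = Fin.cast hε.symm 1 := by
          intro j
          have : j.val < 2 := lt_of_lt_of_eq j.2 hε
          rcases Nat.lt_or_ge j.val 1 with h6 | h6
          · left
            ext
            simp
            omega
          · right
            ext
            simp
            omega
        rcases h5 j with rfl | rfl <;> rcases h5 l with rfl | rfl
        · exact near_refl _ _
        · exact h4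
        · exact near_symm h4
        · exact near_refl _ _
      · right
        exact ⟨h3, h4⟩
  · rw [dec_ne hε _ h, cod_succ]
    exact ⟨fun h1 => h1.1, fun h1 => ⟨h1, fun h2 => absurd h2 h⟩⟩

theorem osum_cod {x : RS a} (hx : Cb ε x) : IsOSum 0 (Lim (a := ar a)) (cod ε x) := by
  have hlt : ∀ u v, cod ε x 0 (p2 u v) = true ↔ Lt ε x u v ∧ ¬ Near ε x u v := fun u v =>
    cod_zero x (p2 u v)
  have hf : ∀ u v, cod ε x 0 (p2 u v) = false ↔ ¬ (Lt ε x u v ∧ ¬ Near ε x u v) := by
    intro u v
    rw [← hlt, Bool.not_eq_true]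
  refine ⟨fun u => (hf u u).2 fun h => hx.lin.irrefl _ h.1, ?_, ?_, ?_, ?_⟩
  · intro u v w h1 h2
    rw [hlt] at h1 h2 ⊢
    refine ⟨hx.lin.trans _ _ _ h1.1 h2.1, fun h3 => h1.2 ?_⟩
    exact hx.lin.conv h3 v (Or.inl ⟨Or.inr h1.1, Or.inr h2.1⟩)
  · intro u v w h1
    rw [hlt] at h1
    rw [hlt, hlt]
    by_cases h2 : Near ε x u v
    · right
      refine ⟨?_, fun h3 => h1.2 (near_trans h2 h3)⟩
      rcases hx.lin.total v w with h4 | h4 | h4
      · rw [h4] at h2
        exact absurd h2 h1.2
      · exact h4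
      · exact absurd (hx.lin.conv h2 w (Or.inl ⟨Or.inr h1.1, Or.inr h4⟩)) h1.2
    · rcases hx.lin.total u v with h4 | h4 | h4
      · exact absurd (h4 ▸ near_refl x u) h2
      · exact Or.inl ⟨h4, h2⟩
      · right
        refine ⟨hx.lin.trans _ _ _ h4 h1.1, fun h5 => h2 (near_symm ?_)⟩
        exact hx.lin.conv h5 u (Or.inl ⟨Or.inr h4, Or.inr h1.1⟩)
  · intro i hi t ht j l
    rw [hf]
    rintro ⟨-, h2⟩
    apply h2
    cases i with
    | zero => exact absurd rfl hi
    | succ i =>
      obtain ⟨h5, h6⟩ := (cod_succ x i t).1 ht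
      by_cases h3 : i = ε
      · exact h6 h3 j l
      · rcases hx.lin.le_total (t j) (t l) with h4 | h4
        · exact .single ⟨i, h3, t, h5, j, l, ⟨Or.inl rfl, h4⟩, h4, Or.inl rfl⟩
        · exact .single ⟨i, h3, t, h5, l, j, ⟨h4, Or.inl rfl⟩, Or.inl rfl, h4⟩
  · intro u e he hr
    have hr' : ∀ z, Near ε x u z ↔ ∃ n, e n = z := by
      intro z
      rw [← hr z, hf, hf]
      constructor
      · intro h
        exact ⟨fun h2 => h2.2 (near_symm h), fun h2 => h2.2 h⟩
      · rintro ⟨h1, h2⟩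
        by_contra h3
        rcases hx.lin.total u z with h4 | h4 | h4
        · exact h3 (h4 ▸ near_refl x u)
        · exact h2 ⟨h4, h3⟩
        · exact h1 ⟨h4, fun h5 => h3 (near_symm h5)⟩
    have hb := hx.blocks u e he hr'
    intro g j hg hj
    refine hb g j (fun n i v => ?_) hj
    have h1 := hg n (i + 1) v
    have h2 : ∀ w : Fin (a i) → ℕ, (if (i + 1) ≠ 0 then cod ε x (i + 1) (e ∘ w) else false) =
        x i (e ∘ w) := by
      intro w
      rw [if_pos (Nat.succ_ne_zero i), Bool.eq_iff_iff]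
      refine (cod_succ x i (e ∘ w)).trans ⟨fun h3 => h3.1, fun h3 => ⟨h3, fun _ j l => ?_⟩⟩
      exact near_trans (near_symm ((hr' _).2 ⟨w j, rfl⟩)) ((hr' _).2 ⟨w l, rfl⟩)
    exact (h2 _).symm.trans (h1.trans (h2 _))

/-- Vaught's conjecture for the linearly ordered structures with complete blocks -/
theorem vcu_cb (hε : a ε = 2) : VCu (Cb ε : RS a → Prop) := by
  have h1 : VCu (Lim (a := ar a)) := vcu_lim _ fun _ h => h
  have h2 : VCu (IsOSum 0 (Lim (a := ar a))) := Pool.Agent.H533R2.VS.vs_ord (ar a) 0 rfl _ h1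
  have h3 := Pool.Agent.H533R2.VS.vs_exc a (ar a) (cod ε) (dec hε) (canon hε) _ h2
  intro B hB hi hBV
  exact h3 B hB hi fun x hx => ⟨osum_cod (hBV x hx), dec_cod hε x.1⟩

/-- structures with an invariant scattered order, for finitely many parameters -/
theorem lim_of_inv {y : RS a} {P : Finset ℕ} {r : ℕ → ℕ → Prop} (irr : ∀ u, ¬ r u u)
    (tr : ∀ u v w, r u v → r v w → r u w) (tot : ∀ u v, u = v ∨ r u v ∨ r v u)
    (hsc : ¬ ∃ f : ℚ → ℕ, ∀ p q, p < q → r (f p) (f q))
    (hr : ∀ g : Equiv.Perm ℕ, (∀ i v, y i (⇑g ∘ v) = y i v) → (∀ u ∈ P, g u = u) →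
      ∀ u v, r (g u) (g v) ↔ r u v) : Lim y := by
  intro g j hg hj
  choose N hN using hj
  let M := P.sup N
  have hM : ∀ n, M ≤ n → ∀ u ∈ P, g n u = j u := fun n hn u hu =>
    hN u n ((Finset.le_sup (f := N) hu).trans hn)
  let h : ℕ → Equiv.Perm ℕ := fun n => (g (M + n)).trans (g M).symm
  have h1 : ∀ n i v, y i (⇑(h n) ∘ v) = y i v := by
    intro n i v
    have h2 : ⇑(h n) ∘ v = ⇑(g M).symm ∘ (⇑(g (M + n)) ∘ v) := rfl
    rw [h2, ← hg M i, ← Function.comp_assoc, Equiv.self_comp_symm, Function.id_comp, hg]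
  have h2 : ∀ n u v, r (h n u) (h n v) ↔ r u v := fun n => hr (h n) (h1 n) fun u hu => by
    show (g M).symm (g (M + n) u) = u
    rw [hM (M + n) (Nat.le_add_right _ _) u hu, ← hM M le_rfl u hu, Equiv.symm_apply_apply]
  have h3 : Function.Surjective fun m => (g M).symm (j m) :=
    onto_rel irr tr tot hsc h2 fun m => ⟨N m, fun n hn => by
      show (g M).symm (g (M + n) m) = (g M).symm (j m)
      rw [hN m (M + n) (hn.trans (Nat.le_add_left _ _))]⟩
  intro w
  obtain ⟨m, hm⟩ := h3 ((g M).symm w)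
  exact ⟨m, (g M).symm.injective hm⟩

/-- blocks of structures with scattered spans are complete -/
theorem lim_of_scattered {y : RS a} (hl : Lin ε y) (hs : Sc ε y univ) : Lim y := by
  intro g j hg hj
  refine onto_rel (r := Lt ε y) hl.irrefl hl.trans hl.total ?_ (fun n u v => ?_) hj
  · rintro ⟨f, hf⟩
    exact hs ⟨f, hf, fun _ => trivial⟩
  · unfold Lt
    have h1 := hg n ε (p2 u v)
    have h2 : (⇑(g n) ∘ (p2 u v : Fin (a ε) → ℕ)) = p2 (g n u) (g n v) := by
      funext k
      unfold p2
      show g n (if k.val = 0 then u else v) = _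
      split <;> rfl
    rw [h2] at h1
    rw [h1]

theorem cb_of_spans {x : RS a} (hl : Lin ε x) (hs : Spans ε x) : Cb ε x := by
  refine ⟨hl, fun u e he hr => ?_⟩
  have h1 : ∀ m n, Lt ε (fun i v => x i (e ∘ v) : RS a) m n ↔ Lt ε x (e m) (e n) := by
    intro m n
    unfold Lt
    have h2 : (e ∘ (p2 m n : Fin (a ε) → ℕ)) = p2 (e m) (e n) := by
      funext k
      unfold p2
      show e (if k.val = 0 then m else n) = _
      split <;> rfl
    show x ε (e ∘ p2 m n) = true ↔ _
    rw [h2]
  refine lim_of_scattered (ε := ε) ⟨?_, ?_, ?_⟩ ?_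
  · intro m h
    exact hl.irrefl _ ((h1 m m).1 h)
  · intro m n k h h'
    exact (h1 m k).2 (hl.trans _ _ _ ((h1 m n).1 h) ((h1 n k).1 h'))
  · intro m n
    rw [h1, h1]
    rcases hl.total (e m) (e n) with h | h | h
    · exact Or.inl (he h)
    · exact Or.inr (Or.inl h)
    · exact Or.inr (Or.inr h)
  · rintro ⟨f, hf, -⟩
    exact hl.sc_block hs u ⟨fun q => e (f q), fun p q hpq => (h1 _ _).1 (hf p q hpq), fun p =>
      (hr _).2 ⟨f p, rfl⟩⟩

theorem vcu_spans (hε : a ε = 2) : VCu (fun x : RS a => Lin ε x ∧ Spans ε x) := by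
  intro B hB hi hBV
  exact vcu_cb hε B hB hi fun x hx => cb_of_spans (hBV x hx).1 (hBV x hx).2

end Pool.Agent.V8H93.SV
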