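import Mathlib

set_option autoImplicit false

/-!
A pointwise limit of automorphisms of a scattered linear order is onto.
-/

namespace Pool.Agent.V8H93.SV

open Set

variable {α : Type*} [LinearOrder α]

/-- a convex equivalence relation, invariant under the maps `g n`, for which the range of `j` is
saturated -/
structure Good (g : ℕ → α ≃o α) (j : α → α) (E : α → α → Prop) : Prop where
  refl : ∀ a, E a a
  symm : ∀ a b, E a b → E b a
  trans : ∀ a b c, E a b → E b c → E a c
  conv : ∀ a b c, a ≤ b → b ≤ c → E a c → E a b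
  inv : ∀ n a b, E (g n a) (g n b) ↔ E a b
  sat : ∀ a b, E a (j b) → ∃ c, j c = a

/-- the next relation -/
def Nx (E : α → α → Prop) (a b : α) : Prop := ∃ C : Finset α, ∀ z ∈ uIcc a b, ∃ c ∈ C, E z c

variable {g : ℕ → α ≃o α} {j : α → α} {E : α → α → Prop}

theorem Good.conv' (h : Good g j E) {a b c : α}
    (h1 : a ≤ b) (h2 : b ≤ c) (h3 : E a c) : E b c :=
  h.trans _ _ _ (h.symm _ _ (h.conv _ _ _ h1 h2 h3)) h3

theorem Good.le_nx (h : Good g j E) {a b : α}
    (h1 : E a b) : Nx E a b := by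
  refine ⟨{a}, fun z hz => ⟨a, Finset.mem_singleton_self a, ?_⟩⟩
  rcases le_total a b with hab | hab
  · rw [uIcc_of_le hab] at hz
    exact h.symm _ _ (h.conv _ _ _ hz.1 hz.2 h1)
  · rw [uIcc_of_ge hab] at hz
    exact h.conv' hz.1 hz.2 (h.symm _ _ h1)

/-- the classes that meet an interval -/
def Cls (E : α → α → Prop) (a b : α) : Set (Set α) := (fun z => {y | E z y}) '' Icc a b

theorem cls_finite (h : Good g j E) {a b : α}
    (hab : a ≤ b) (h1 : Nx E a b) : (Cls E a b).Finite := by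
  obtain ⟨C, hC⟩ := h1
  refine (C.finite_toSet.image fun z => {y | E z y}).subset ?_
  rintro _ ⟨z, hz, rfl⟩
  rw [uIcc_of_le hab] at hC
  obtain ⟨c, hc, hzc⟩ := hC z hz
  refine ⟨c, hc, ?_⟩
  ext y
  exact ⟨fun h2 => h.trans _ _ _ hzc h2, fun h2 => h.trans _ _ _ (h.symm _ _ hzc) h2⟩

theorem cls_image (h : Good g j E) (n : ℕ) (a b : α) :
    Cls E (g n a) (g n b) = (fun S => g n '' S) '' Cls E a b := by
  unfold Cls
  rw [image_image]
  ext S
  constructor
  · rintro ⟨z, hz, rfl⟩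
    refine ⟨(g n).symm z, ⟨?_, ?_⟩, ?_⟩
    · exact (g n).le_symm_apply.2 hz.1
    · exact (g n).symm_apply_le.2 hz.2
    · ext y
      constructor
      · rintro ⟨w, hw, rfl⟩
        have := (h.inv n _ _).2 hw
        rw [OrderIso.apply_symm_apply] at this
        exact this
      · intro hy
        refine ⟨(g n).symm y, (h.inv n _ _).1 ?_, (g n).apply_symm_apply y⟩
        rw [OrderIso.apply_symm_apply, OrderIso.apply_symm_apply]
        exact hy
  · rintro ⟨z, hz, rfl⟩
    refine ⟨g n z, ⟨(g n).le_iff_le.2 hz.1, (g n).le_iff_le.2 hz.2⟩, ?_⟩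
    ext y
    constructor
    · intro hy
      refine ⟨(g n).symm y, (h.inv n _ _).1 ?_, (g n).apply_symm_apply y⟩
      rw [OrderIso.apply_symm_apply]
      exact hy
    · rintro ⟨w, hw, rfl⟩
      exact (h.inv n _ _).2 hw

theorem cls_card (h : Good g j E) (n : ℕ) (a b : α) :
    (Cls E (g n a) (g n b)).ncard = (Cls E a b).ncard := by
  rw [cls_image h]
  exact ncard_image_of_injective _ (image_injective.2 (g n).injective)

theorem key_left (h : Good g j E) {p q b : α} (hpq : p ≤ q) (hqb : q ≤ b) (hN : Nx E p b)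
    (hc : (Cls E p b).ncard = (Cls E q b).ncard) : E p q := by
  have hf := cls_finite h (hpq.trans hqb) hN
  have hs : Cls E q b ⊆ Cls E p b := image_mono (Icc_subset_Icc_left hpq)
  have he : Cls E q b = Cls E p b := eq_of_subset_of_ncard_le hs hc.le hf
  have h1 : {y | E p y} ∈ Cls E q b := by
    rw [he]
    exact ⟨p, ⟨le_rfl, hpq.trans hqb⟩, rfl⟩
  obtain ⟨z, hz, h2⟩ := h1
  have h3 : z ∈ {y | E p y} := by
    rw [← h2]
    exact h.refl z
  exact h.conv _ _ _ hpq hz.1 h3

theorem key_right (h : Good g j E) {p q b : α} (hbq : b ≤ q) (hqp : q ≤ p) (hN : Nx E b p)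
    (hc : (Cls E b p).ncard = (Cls E b q).ncard) : E p q := by
  have hf := cls_finite h (hbq.trans hqp) hN
  have hs : Cls E b q ⊆ Cls E b p := image_mono (Icc_subset_Icc_right hqp)
  have he : Cls E b q = Cls E b p := eq_of_subset_of_ncard_le hs hc.le hf
  have h1 : {y | E p y} ∈ Cls E b q := by
    rw [he]
    exact ⟨p, ⟨hbq.trans hqp, le_rfl⟩, rfl⟩
  obtain ⟨z, hz, h2⟩ := h1
  have h3 : z ∈ {y | E p y} := by
    rw [← h2]
    exact h.refl z
  exact h.symm _ _ (h.conv' hz.2 hqp (h.symm _ _ h3))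

theorem nx_image (h : Good g j E) (n : ℕ) {a b : α} : Nx E (g n a) (g n b) ↔ Nx E a b := by
  have key : ∀ z, z ∈ uIcc (g n a) (g n b) ↔ (g n).symm z ∈ uIcc a b := by
    intro z
    rw [mem_uIcc, mem_uIcc, (g n).le_symm_apply, (g n).le_symm_apply, (g n).symm_apply_le,
      (g n).symm_apply_le]
  constructor
  · rintro ⟨C, hC⟩
    refine ⟨C.map (g n).symm.toEquiv.toEmbedding, fun z hz => ?_⟩
    obtain ⟨c, hc, h1⟩ := hC (g n z) ((key _).2 (by rw [OrderIso.symm_apply_apply]; exact hz))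
    refine ⟨(g n).symm c, Finset.mem_map.2 ⟨c, hc, rfl⟩, (h.inv n _ _).1 ?_⟩
    rw [OrderIso.apply_symm_apply]
    exact h1
  · rintro ⟨C, hC⟩
    refine ⟨C.map (g n).toEquiv.toEmbedding, fun z hz => ?_⟩
    obtain ⟨c, hc, h1⟩ := hC _ ((key _).1 hz)
    refine ⟨g n c, Finset.mem_map.2 ⟨c, hc, rfl⟩, ?_⟩
    have := (h.inv n _ _).2 h1
    rw [OrderIso.apply_symm_apply] at this
    exact this

theorem nx_symm {a b : α} (h : Nx E a b) : Nx E b a := by
  obtain ⟨C, hC⟩ := h
  exact ⟨C, fun z hz => hC z (by rw [uIcc_comm]; exact hz)⟩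

theorem nx_sat (h : Good g j E) (hj : ∀ a, ∃ N, ∀ n, N ≤ n → g n a = j a) {x b : α}
    (hx : Nx E x (j b)) : ∃ c, j c = x := by
  obtain ⟨N, hN⟩ := hj b
  let u : ℕ → α := fun n => (g n).symm x
  have hu : ∀ n, g n (u n) = x := fun n => (g n).apply_symm_apply x
  have key : ∀ n, N ≤ n → E (u N) (u n) := by
    intro n hn
    rcases le_total x (j b) with hxb | hxb
    · have hc : ∀ m, N ≤ m → (Cls E (u m) b).ncard = (Cls E x (j b)).ncard ∧ u m ≤ b ∧
          Nx E (u m) b := by
        intro m hm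
        refine ⟨?_, ?_, ?_⟩
        · rw [← cls_card h m, hu, hN m hm]
        · rw [← (g m).le_iff_le, hu, hN m hm]; exact hxb
        · rw [← nx_image h m, hu, hN m hm]; exact hx
      obtain ⟨a1, a2, a3⟩ := hc N le_rfl
      obtain ⟨b1, b2, b3⟩ := hc n hn
      rcases le_total (u N) (u n) with h1 | h1
      · exact key_left h h1 b2 a3 (a1.trans b1.symm)
      · exact h.symm _ _ (key_left h h1 a2 b3 (b1.trans a1.symm))
    · have hc : ∀ m, N ≤ m → (Cls E b (u m)).ncard = (Cls E (j b) x).ncard ∧ b ≤ u m ∧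
          Nx E b (u m) := by
        intro m hm
        refine ⟨?_, ?_, ?_⟩
        · rw [← cls_card h m, hu, hN m hm]
        · rw [← (g m).le_iff_le, hu, hN m hm]; exact hxb
        · rw [← nx_image h m, hu, hN m hm]; exact nx_symm hx
      obtain ⟨a1, a2, a3⟩ := hc N le_rfl
      obtain ⟨b1, b2, b3⟩ := hc n hn
      rcases le_total (u N) (u n) with h1 | h1
      · exact h.symm _ _ (key_right h a2 h1 b3 (b1.trans a1.symm))
      · exact key_right h b2 h1 a3 (a1.trans b1.symm)
  obtain ⟨M, hM⟩ := hj (u N)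
  have h1 := key (max N M) (le_max_left _ _)
  have h2 := (h.inv (max N M) _ _).2 h1
  rw [hM _ (le_max_right _ _), hu] at h2
  exact h.sat _ _ (h.symm _ _ h2)

theorem nx_good (h : Good g j E) (hj : ∀ a, ∃ N, ∀ n, N ≤ n → g n a = j a) :
    Good g j (Nx E) where
  refl a := h.le_nx (h.refl a)
  symm _ _ h1 := nx_symm h1
  trans := by
    classical
    rintro a b c ⟨C, hC⟩ ⟨D, hD⟩
    refine ⟨C ∪ D, fun z hz => ?_⟩
    rcases uIcc_subset_uIcc_union_uIcc (b := b) hz with h1 | h1
    · obtain ⟨c, hc, h2⟩ := hC z h1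
      exact ⟨c, Finset.mem_union_left _ hc, h2⟩
    · obtain ⟨c, hc, h2⟩ := hD z h1
      exact ⟨c, Finset.mem_union_right _ hc, h2⟩
  conv := by
    rintro a b c hab hbc ⟨C, hC⟩
    refine ⟨C, fun z hz => hC z ?_⟩
    rw [uIcc_of_le hab] at hz
    rw [uIcc_of_le (hab.trans hbc)]
    exact ⟨hz.1, hz.2.trans hbc⟩
  inv n _ _ := nx_image h n
  sat _ _ h1 := nx_sat h hj h1

theorem exists_max (g : ℕ → α ≃o α) (j : α → α) :
    ∃ E : α → α → Prop, Good g j E ∧ ∀ F, Good g j F → E ≤ F → F ≤ E := by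
  obtain ⟨m, hm⟩ := zorn_le₀ {E : α → α → Prop | Good g j E} (by
    intro c hc hch
    rcases c.eq_empty_or_nonempty with rfl | ⟨E0, hE0⟩
    · refine ⟨fun a b => a = b, ?_, by simp⟩
      refine ⟨fun _ => rfl, fun _ _ h => h.symm, fun _ _ _ h h' => h.trans h', ?_, ?_, ?_⟩
      · rintro a b c hab hbc (rfl : a = c)
        exact le_antisymm hab hbc
      · intro n a b
        exact (g n).injective.eq_iff
      · rintro a b rfl
        exact ⟨b, rfl⟩
    · refine ⟨fun a b => ∃ E ∈ c, E a b, ?_, fun E hE a b h => ⟨E, hE, h⟩⟩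
      refine ⟨fun a => ⟨E0, hE0, (hc hE0).refl a⟩, ?_, ?_, ?_, ?_, ?_⟩
      · rintro a b ⟨E, hE, h⟩
        exact ⟨E, hE, (hc hE).symm _ _ h⟩
      · rintro a b d ⟨E, hE, h⟩ ⟨F, hF, h'⟩
        rcases hch.total hE hF with hEF | hFE
        · exact ⟨F, hF, (hc hF).trans _ _ _ (hEF _ _ h) h'⟩
        · exact ⟨E, hE, (hc hE).trans _ _ _ h (hFE _ _ h')⟩
      · rintro a b d hab hbd ⟨E, hE, h⟩
        exact ⟨E, hE, (hc hE).conv _ _ _ hab hbd h⟩
      · intro n a b
        exact exists_congr fun E => and_congr_right fun hE => (hc hE).inv n a b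
      · rintro a b ⟨E, hE, h⟩
        exact (hc hE).sat _ _ h)
  exact ⟨m, hm.1, fun F hF h => hm.2 hF h⟩

theorem onto [Countable α] (hsc : ¬ ∃ f : ℚ → α, StrictMono f)
    (hj : ∀ a, ∃ N, ∀ n, N ≤ n → g n a = j a) : Function.Surjective j := by
  classical
  obtain ⟨E, hE, hmax⟩ := exists_max g j
  have h0 : ∀ a b, Nx E a b → E a b := fun a b h =>
    hmax _ (nx_good hE hj) (fun a b h' => hE.le_nx h') a b h
  suffices hall : ∀ a b, a < b → E a b by
    intro x
    rcases lt_trichotomy x (j x) with h | h | h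
    · exact hE.sat _ _ (hall _ _ h)
    · exact ⟨x, h.symm⟩
    · exact hE.sat _ _ (hE.symm _ _ (hall _ _ h))
  intro a b hab
  by_contra hn
  -- representatives
  let S : Setoid α := ⟨E, hE.refl, fun {a b} h => hE.symm a b h, fun {a b c} h h' => hE.trans a b c h h'⟩
  let s : α → α := fun z => (Quotient.mk S z).out
  have hs : ∀ z, E (s z) z := fun z => Quotient.exact (s := S) (Quotient.out_eq (Quotient.mk S z))
  have hs' : ∀ y z, E y z → s y = s z := fun y z h => by
    have : Quotient.mk S y = Quotient.mk S z := Quotient.sound h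
    show (Quotient.mk S y).out = (Quotient.mk S z).out
    rw [this]
  have hlt : ∀ y z, y < z → ¬ E y z → s y < s z := by
    intro y z hyz hne
    by_contra hc
    rw [not_lt] at hc
    apply hne
    -- s z ≤ s y
    rcases le_total (s y) z with h1 | h1
    · -- s z ≤ s y ≤ z
      have h2 : E (s z) (s y) := hE.conv _ _ _ hc h1 (hs z)
      exact hE.trans _ _ _ (hE.symm _ _ (hs y)) (hE.trans _ _ _ (hE.symm _ _ h2) (hs z))
    · -- y < z ≤ s y
      have h2 : E y z := hE.conv _ _ _ hyz.le h1 (hE.symm _ _ (hs y))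
      exact h2
  let R : Type _ := Set.range s
  have hd : DenselyOrdered (Set.range s) := by
    constructor
    rintro ⟨_, y, rfl⟩ ⟨_, z, rfl⟩ hlt'
    have hyz : s y < s z := hlt'
    have hne : ¬ E (s y) (s z) := by
      intro h
      have : s y = s z := by
        have h1 := hs' _ _ h
        rw [hs' _ _ (hs y), hs' _ _ (hs z)] at h1
        exact h1
      exact hyz.ne this
    have h1 : ¬ Nx E (s y) (s z) := fun h => hne (h0 _ _ h)
    have h2 : ∃ c ∈ uIcc (s y) (s z), ¬ E c (s y) ∧ ¬ E c (s z) := by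
      by_contra hcon
      push Not at hcon
      apply h1
      refine ⟨{s y, s z}, fun c hc => ?_⟩
      by_cases h3 : E c (s y)
      · exact ⟨s y, by simp, h3⟩
      · exact ⟨s z, by simp, hcon c hc h3⟩
    obtain ⟨c, hc, hcy, hcz⟩ := h2
    rw [uIcc_of_le hyz.le] at hc
    have h3 : s y < c := lt_of_le_of_ne hc.1 (fun h => hcy (by rw [← h]; exact hE.refl _))
    have h4 : c < s z := lt_of_le_of_ne hc.2 (fun h => hcz (by rw [h]; exact hE.refl _))
    have e1 : s (s y) = s y := hs' _ _ (hs y)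
    have e2 : s (s z) = s z := hs' _ _ (hs z)
    refine ⟨⟨s c, c, rfl⟩, ?_, ?_⟩
    · show s y < s c
      have := hlt _ _ h3 (fun h => hcy (hE.symm _ _ h))
      rwa [e1] at this
    · show s c < s z
      have := hlt _ _ h4 hcz
      rwa [e2] at this
  have hnt : Nontrivial (Set.range s) :=
    ⟨⟨⟨s a, a, rfl⟩, ⟨s b, b, rfl⟩, fun h => (hlt a b hab hn).ne (congrArg Subtype.val h)⟩⟩
  obtain ⟨f⟩ := Order.embedding_from_countable_to_dense ℚ (Set.range s)
  exact hsc ⟨fun q => (f q : α), fun p q hpq => f.strictMono hpq⟩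

/-- a copy of `ℕ` without its order -/
def Pt : Type := ℕ

instance : Countable Pt := inferInstanceAs (Countable ℕ)

/-- the same for a relation on `ℕ` -/
theorem onto_rel {r : ℕ → ℕ → Prop} (irr : ∀ u, ¬ r u u) (tr : ∀ u v w, r u v → r v w → r u w)
    (tot : ∀ u v, u = v ∨ r u v ∨ r v u)
    (hsc : ¬ ∃ f : ℚ → ℕ, ∀ p q, p < q → r (f p) (f q)) {g : ℕ → Equiv.Perm ℕ}
    (hg : ∀ n u v, r (g n u) (g n v) ↔ r u v) {j : ℕ → ℕ}
    (hj : ∀ m, ∃ N, ∀ n, N ≤ n → g n m = j m) : Function.Surjective j := by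
  classical
  let R : Pt → Pt → Prop := r
  have _ : IsStrictTotalOrder Pt R :=
    { irrefl := irr
      trans := tr
      trichotomous := fun u v h1 h2 => by
        rcases tot u v with h | h | h
        · exact h
        · exact absurd h h1
        · exact absurd h h2 }
  let _ : LinearOrder Pt := linearOrderOfSTO R
  let G : ℕ → Pt ≃o Pt := fun n =>
    { toEquiv := (g n : ℕ ≃ ℕ)
      map_rel_iff' := by
        intro u v
        have h1 : ∀ u v : Pt, u ≤ v ↔ ¬ v < u := fun u v => not_lt.symm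
        rw [h1, h1]
        exact not_congr (hg n v u) }
  refine onto (α := Pt) (g := G) (j := j) ?_ hj
  rintro ⟨f, hf⟩
  exact hsc ⟨f, fun p q hpq => hf hpq⟩

end Pool.Agent.V8H93.SV
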